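import Mathlib

set_option autoImplicit false

/-!
# Countably categorical Jordan nilrings need not be solvable

Question 2 in the generality of the problem file (no restriction on the characteristic). The ring is
`𝔽₂³` with the vector product: `e₀ e₁ = e₂`, `e₁ e₂ = e₀`, `e₂ e₀ = e₁`. It is commutative, all
squares vanish, and every element is a product, so all derived powers are the whole ring. It is
finite, and every model of its complete theory, of any cardinality, is isomorphic to it.
-/

namespace Pool.Agent.Results.MP_bd8d3e_al.JordanQuestion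

open FirstOrder FirstOrder.Language

/-- The symbols `0`, `-`, `+`, `·`. -/
inductive Sym : ℕ → Type
  | zero : Sym 0
  | neg : Sym 1
  | add : Sym 2
  | mul : Sym 2

/-- The language `{+, -, 0, ·}` of rings. -/
def L : Language := ⟨Sym, fun _ => Empty⟩

/-- A (not necessarily associative) ring as a structure. -/
@[reducible] def ringStructure (A : Type) [NonUnitalNonAssocRing A] : L.Structure A where
  funMap := fun {_} f => match f with
    | .zero => fun _ => 0
    | .neg => fun x => - x 0
    | .add => fun x => x 0 + x 1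
    | .mul => fun x => x 0 * x 1
  RelMap := fun {_} r => r.elim

/-- `A` is Jordan: `xy = yx` and `(x²y)x = x²(yx)`. -/
def IsJordanRing (A : Type) [NonUnitalNonAssocRing A] : Prop :=
  ∀ x y : A, x * y = y * x ∧ ((x * x) * y) * x = (x * x) * (y * x)

/-- `pw x n = xⁿ⁺¹`, with `x¹ = x` and `xⁿ⁺¹ = xⁿ x`. -/
def pw {A : Type} [NonUnitalNonAssocRing A] (x : A) : ℕ → A
  | 0 => x
  | n + 1 => pw x n * x

/-- `A` is a nilring: every `x` has `xⁿ = 0` for some `n ≥ 1`. -/
def IsNilring (A : Type) [NonUnitalNonAssocRing A] : Prop := ∀ x : A, ∃ n, pw x n = 0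

/-- The derived powers `A⁽⁰⁾ = A`, `A⁽ᵏ⁺¹⁾ = A⁽ᵏ⁾A⁽ᵏ⁾`. -/
def derived (A : Type) [NonUnitalNonAssocRing A] : ℕ → AddSubgroup A
  | 0 => ⊤
  | k + 1 => AddSubgroup.closure {z | ∃ u ∈ derived A k, ∃ v ∈ derived A k, u * v = z}

/-- The complete theory of `A` has exactly one countable model up to isomorphism. -/
def CountablyCategorical (A : Type) [NonUnitalNonAssocRing A] : Prop :=
  letI := ringStructure A
  (∃ (M : Type) (_ : L.Structure M), Countable M ∧ M ⊨ L.completeTheory A) ∧
  ∀ (M N : Type) [L.Structure M] [L.Structure N], Countable M → Countable N →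
    M ⊨ L.completeTheory A → N ⊨ L.completeTheory A → Nonempty (M ≃[L] N)

/-! ### Finite rings are determined by their complete theory -/

section Fin

variable (A : Type) [NonUnitalNonAssocRing A]

/-- a variable -/
def vr (a : A) : L.Term (Empty ⊕ A) := Term.var (Sum.inr a)

/-- a sum -/
def tadd (s t : L.Term (Empty ⊕ A)) : L.Term (Empty ⊕ A) :=
  Functions.apply₂ (L := L) (show L.Functions 2 from Sym.add) s t

/-- a product -/
def tmul (s t : L.Term (Empty ⊕ A)) : L.Term (Empty ⊕ A) :=
  Functions.apply₂ (L := L) (show L.Functions 2 from Sym.mul) s t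

/-- a negative -/
def tneg (s : L.Term (Empty ⊕ A)) : L.Term (Empty ⊕ A) :=
  Functions.apply₁ (L := L) (show L.Functions 1 from Sym.neg) s

/-- zero -/
def tzero : L.Term (Empty ⊕ A) :=
  Term.func (show L.Functions 0 from Sym.zero) (fun i => i.elim0)

theorem realize_tadd {A : Type} {M : Type} [S : L.Structure M] (u : Empty ⊕ A → M)
    (s t : L.Term (Empty ⊕ A)) : (tadd A s t).realize u =
      S.funMap (show L.Functions 2 from Sym.add) ![s.realize u, t.realize u] :=
  Term.realize_functions_apply₂

theorem realize_tmul {A : Type} {M : Type} [S : L.Structure M] (u : Empty ⊕ A → M)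
    (s t : L.Term (Empty ⊕ A)) : (tmul A s t).realize u =
      S.funMap (show L.Functions 2 from Sym.mul) ![s.realize u, t.realize u] :=
  Term.realize_functions_apply₂

theorem realize_tneg {A : Type} {M : Type} [S : L.Structure M] (u : Empty ⊕ A → M)
    (s : L.Term (Empty ⊕ A)) : (tneg A s).realize u =
      S.funMap (show L.Functions 1 from Sym.neg) ![s.realize u] :=
  Term.realize_functions_apply₁

theorem realize_tzero {A : Type} {M : Type} [S : L.Structure M] (u : Empty ⊕ A → M) :
    (tzero A).realize u = S.funMap (show L.Functions 0 from Sym.zero) ![] := by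
  change S.funMap (show L.Functions 0 from Sym.zero) _ = _
  congr 1
  exact Subsingleton.elim _ _

open Classical in
/-- the diagram of `A` -/
noncomputable def diag [Finite A] : L.Formula (Empty ⊕ A) :=
  ((Formula.iInf fun p : A × A => (tadd A (vr A p.1) (vr A p.2)).equal (vr A (p.1 + p.2))) ⊓
    (Formula.iInf fun p : A × A => (tmul A (vr A p.1) (vr A p.2)).equal (vr A (p.1 * p.2)))) ⊓
  (((Formula.iInf fun p : A × A =>
      if p.1 = p.2 then (vr A p.1).equal (vr A p.2) else ∼((vr A p.1).equal (vr A p.2))) ⊓
    (Formula.iInf fun a : A => (tneg A (vr A a)).equal (vr A (-a)))) ⊓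
    (tzero A).equal (vr A 0))

theorem diag_iff [Finite A] (M : Type) [S : L.Structure M] (v : Empty → M) (w : A → M) :
    (diag A).Realize (Sum.elim v w) ↔
      (∀ a b, S.funMap (show L.Functions 2 from Sym.add) ![w a, w b] = w (a + b)) ∧
      (∀ a b, S.funMap (show L.Functions 2 from Sym.mul) ![w a, w b] = w (a * b)) ∧
      Function.Injective w ∧
      (∀ a, S.funMap (show L.Functions 1 from Sym.neg) ![w a] = w (-a)) ∧
      S.funMap (show L.Functions 0 from Sym.zero) ![] = w 0 := by
  classical
  have ev : ∀ a, (vr A a).realize (Sum.elim v w) = w a := fun a => rfl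
  simp only [diag, Formula.realize_inf, Formula.realize_iInf, Formula.realize_equal,
    realize_tadd, realize_tmul, realize_tneg, realize_tzero, ev, Prod.forall]
  constructor
  · rintro ⟨⟨h1, h2⟩, ⟨h3, h4⟩, h5⟩
    refine ⟨h1, h2, fun a b hab => ?_, h4, h5⟩
    by_contra hne
    have := h3 a b
    rw [if_neg hne] at this
    simp only [Formula.realize_not, Formula.realize_equal, ev] at this
    exact this hab
  · rintro ⟨h1, h2, h3, h4, h5⟩
    refine ⟨⟨h1, h2⟩, ⟨fun a b => ?_, h4⟩, h5⟩
    split_ifs with h
    · simp only [Formula.realize_equal, ev]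
      rw [h]
    · simp only [Formula.realize_not, Formula.realize_equal, ev]
      exact fun e => h (h3 e)

/-- Every model of the complete theory of a finite ring is isomorphic to it. -/
theorem model_iso [Finite A] (M : Type) [SM : L.Structure M]
    (h : letI := ringStructure A; M ⊨ L.completeTheory A) :
    letI := ringStructure A
    Nonempty (A ≃[L] M) := by
  classical
  letI SA := ringStructure A
  haveI : M ⊨ L.completeTheory A := h
  haveI := Fintype.ofFinite A
  -- the diagram
  have hA : A ⊨ (diag A).iExs A := by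
    rw [Sentence.Realize, Formula.realize_iExs]
    refine ⟨id, (diag_iff A A _ _).2 ⟨fun a b => rfl, fun a b => rfl, Function.injective_id,
      fun a => rfl, rfl⟩⟩
  have hM : M ⊨ (diag A).iExs A :=
    (realize_iff_of_model_completeTheory (L := L) A M _).2 hA
  rw [Sentence.Realize, Formula.realize_iExs] at hM
  obtain ⟨w, hw⟩ := hM
  obtain ⟨h1, h2, h3, h4, h5⟩ := (diag_iff A M _ _).1 hw
  -- the number of elements
  have hc : ¬ ((Fintype.card A + 1 : ℕ) : Cardinal) ≤ Cardinal.mk M := by
    rw [← Sentence.realize_cardGe (L := L),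
      realize_iff_of_model_completeTheory (L := L) A M _, Sentence.realize_cardGe,
      Cardinal.mk_fintype]
    intro h
    have := Nat.cast_le.1 h
    omega
  have hlt : Cardinal.mk M < ((Fintype.card A + 1 : ℕ) : Cardinal) := not_le.1 hc
  haveI : Finite M := Cardinal.lt_aleph0_iff_finite.1 (hlt.trans (Cardinal.natCast_lt_aleph0))
  haveI := Fintype.ofFinite M
  have hcard : Fintype.card M ≤ Fintype.card A := by
    rw [Cardinal.mk_fintype] at hlt
    have := Nat.cast_lt.1 hlt
    omega
  have hb : Function.Bijective w := by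
    rw [Fintype.bijective_iff_injective_and_card]
    exact ⟨h3, le_antisymm (Fintype.card_le_of_injective w h3) hcard⟩
  refine ⟨{ Equiv.ofBijective w hb with
    map_fun' := ?_
    map_rel' := fun {n} r x => (r : Empty).elim }⟩
  intro n f x
  change w (SA.funMap f x) = SM.funMap f (w ∘ x)
  match n, f with
  | _, Sym.zero =>
    change w 0 = _
    rw [← h5]
    congr 1
    exact Subsingleton.elim _ _
  | _, Sym.neg =>
    change w (- x 0) = _
    rw [← h4]
    congr 1
    funext i
    fin_cases i
    rfl
  | _, Sym.add =>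
    change w (x 0 + x 1) = _
    rw [← h1]
    congr 1
    funext i
    fin_cases i <;> rfl
  | _, Sym.mul =>
    change w (x 0 * x 1) = _
    rw [← h2]
    congr 1
    funext i
    fin_cases i <;> rfl

theorem categorical_of_finite [Finite A] : CountablyCategorical A := by
  letI SA := ringStructure A
  refine ⟨⟨A, SA, inferInstance, inferInstance⟩, fun M N _ _ _ _ hM hN => ?_⟩
  obtain ⟨e⟩ := model_iso A M hM
  obtain ⟨f⟩ := model_iso A N hN
  exact ⟨f.comp e.symm⟩

end Fin

/-! ### The ring -/

/-- The additive group `𝔽₂³`. -/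
def V : Type := Fin 3 → ZMod 2

instance : AddCommGroup V := inferInstanceAs (AddCommGroup (Fin 3 → ZMod 2))
instance : Fintype V := inferInstanceAs (Fintype (Fin 3 → ZMod 2))
instance : DecidableEq V := inferInstanceAs (DecidableEq (Fin 3 → ZMod 2))

/-- `V` with the vector product. -/
instance : NonUnitalNonAssocRing V where
  mul x y := (![x 1 * y 2 + x 2 * y 1, x 2 * y 0 + x 0 * y 2, x 0 * y 1 + x 1 * y 0] :
    Fin 3 → ZMod 2)
  left_distrib := by decide
  right_distrib := by decide
  zero_mul := by decide
  mul_zero := by decide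

theorem mul_def (x y : V) : x * y =
    (![x 1 * y 2 + x 2 * y 1, x 2 * y 0 + x 0 * y 2, x 0 * y 1 + x 1 * y 0] : Fin 3 → ZMod 2) :=
  rfl

theorem mul_self (x : V) : x * x = 0 := by
  revert x
  decide

theorem mul_comm' (x y : V) : x * y = y * x := by
  revert x y
  decide

theorem exists_mul (z : V) : ∃ u v : V, u * v = z := by
  revert z
  decide

theorem derived_eq (k : ℕ) : derived V k = ⊤ := by
  induction k with
  | zero => rfl
  | succ k ih =>
    rw [derived, ih, eq_top_iff]
    intro z _
    obtain ⟨u, v, h⟩ := exists_mul z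
    exact AddSubgroup.subset_closure ⟨u, AddSubgroup.mem_top u, v, AddSubgroup.mem_top v, h⟩

/-- There is a countably categorical Jordan nilring, with `x² = 0` for all `x` and with eight
elements, all of whose derived powers are nonzero. -/
theorem result : ∃ (A : Type) (_ : NonUnitalNonAssocRing A), IsJordanRing A ∧ IsNilring A ∧
    CountablyCategorical A ∧ (∀ k, derived A k ≠ ⊥) ∧ (∀ x : A, x * x = 0) ∧ Nat.card A = 8 := by
  refine ⟨V, inferInstance, fun x y => ⟨mul_comm' x y, ?_⟩, fun x => ⟨1, mul_self x⟩,
    categorical_of_finite V, fun k h => ?_, mul_self, ?_⟩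
  · rw [mul_self, zero_mul, zero_mul, zero_mul]
  · rw [derived_eq] at h
    have h1 : (fun _ => 1 : Fin 3 → ZMod 2) ∈ (⊤ : AddSubgroup V) := AddSubgroup.mem_top _
    rw [h] at h1
    have h2 := congrFun (AddSubgroup.mem_bot.1 h1) 0
    exact absurd h2 (by decide)
  · rw [Nat.card_eq_fintype_card]
    rfl

end Pool.Agent.Results.MP_bd8d3e_al.JordanQuestion
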